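import Pool.Agent.H56.Mono.Final

/-!
# Monotonicity of Almgren minimal angles

Q2 for two planes (all dimensions), and for any number of planes with flexible angles.
-/

namespace Pool.Agent.Results.MP_bd2026_an.AlmgrenMonotonicity

open H56Mono

/-- (1) Two planes: if `a ≤ b`, `a` is an Almgren minimal angle in `R^n` and `a` is not identically
zero (that is, the two planes are distinct), then `b` is an Almgren minimal angle.
(2) `m` planes: the same if the `m × m` matrix with `1` on the diagonal and `- cos a^{ij}_1` off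
the diagonal is positive definite. -/
theorem result :
    (∀ (n d : ℕ) (_ : 2 ≤ d) (_ : d * 2 ≤ n) (a b : Fin 2 → Fin 2 → Fin d → ℝ),
      IsAngleFamily b → (∀ k, a 0 1 k ≤ b 0 1 k) → (∃ k, a 0 1 k ≠ 0) →
      AlmgrenMinimalAngle n a → AlmgrenMinimalAngle n b) ∧
    (∀ (n m d : ℕ) (hd : 2 ≤ d) (_ : 2 ≤ m) (_ : d * m ≤ n) (a b : Fin m → Fin m → Fin d → ℝ),
      IsAngleFamily b → (∀ i j, i < j → ∀ k, a i j k ≤ b i j k) →
      (flexMatrix (lt_of_lt_of_le Nat.zero_lt_two hd) a).PosDef →
      AlmgrenMinimalAngle n a → AlmgrenMinimalAngle n b) :=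
  ⟨fun _ _ hd hn a b hb hab hne h =>
      two_monotone (lt_of_lt_of_le Nat.zero_lt_two hd) hn a b hb hab hne h,
    fun _ _ _ hd _ hn a b hb hab hflex h =>
      flex_monotone (lt_of_lt_of_le Nat.zero_lt_two hd) hn a b hb hab hflex h⟩

end Pool.Agent.Results.MP_bd2026_an.AlmgrenMonotonicity
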